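import Pool.Agent.helper41.G5.SpecG

/-!
# d2:gRIE: the Riemann sum
-/

set_option autoImplicit false

open Filter Topology MeasureTheory

namespace Pool.Agent.helper90.DH

open Pool.Agent.helper64.D2

/-- an integral of squares is bounded by the lintegral, without measurability. -/
theorem gRIE_len (D : ℝ → ℝ) (M : ℝ) (hM : 0 ≤ M) (h : ∫⁻ y, ENNReal.ofReal (D y ^ 2) ≤ ENNReal.ofReal M) :
    ∫ y, D y ^ 2 ≤ M := by
  by_cases hi : Integrable (fun y => D y ^ 2) volume
  · rw [integral_eq_lintegral_of_nonneg_ae (Eventually.of_forall fun y => sq_nonneg _) hi.aestronglyMeasurable]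
    exact ENNReal.toReal_le_of_le_ofReal hM h
  · rw [integral_undef hi]
    exact hM

/-- Cauchy-Schwarz for the average over an interval. -/
theorem gRIE_cs (u : ℝ → ℝ) (δ : ℝ) (hδ : 0 < δ) (hu : IntegrableOn u (Set.Ioc 0 δ) volume)
    (hu2 : IntegrableOn (fun v => u v ^ 2) (Set.Ioc 0 δ) volume) :
    (1 / δ * ∫ v in Set.Ioc 0 δ, u v) ^ 2 ≤ 1 / δ * ∫ v in Set.Ioc 0 δ, u v ^ 2 := by
  set m : ℝ := 1 / δ * ∫ v in Set.Ioc 0 δ, u v with hm
  have hI : ∫ v in Set.Ioc 0 δ, u v = δ * m := by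
    rw [hm]; field_simp
  have h0 : 0 ≤ ∫ v in Set.Ioc 0 δ, (u v - m) ^ 2 := integral_nonneg fun v => sq_nonneg _
  have hc : IntegrableOn (fun _ : ℝ => m ^ 2) (Set.Ioc 0 δ) volume := by
    refine integrableOn_const ?_
    simp [Real.volume_Ioc]
  have h1 : ∫ v in Set.Ioc 0 δ, (u v - m) ^ 2 = (∫ v in Set.Ioc 0 δ, u v ^ 2) - 2 * m * (δ * m) + δ * m ^ 2 := by
    have e1 : (fun v => (u v - m) ^ 2) = fun v => (u v ^ 2 - 2 * m * u v) + m ^ 2 := by
      funext v; ring
    have i1 : IntegrableOn (fun v => u v ^ 2 - 2 * m * u v) (Set.Ioc 0 δ) volume := hu2.sub (hu.const_mul _)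
    rw [e1, integral_add i1 hc, integral_sub hu2 (hu.const_mul _), integral_const_mul, hI]
    simp [hδ.le]
  rw [h1] at h0
  have h2 : δ * m ^ 2 ≤ ∫ v in Set.Ioc 0 δ, u v ^ 2 := by nlinarith
  have h3 : m ^ 2 = 1 / δ * (δ * m ^ 2) := by field_simp
  rw [h3]
  exact mul_le_mul_of_nonneg_left h2 (by positivity)

/-- Cauchy-Schwarz for finite averages. -/
theorem gRIE_fin (N : ℕ) (hN : 1 ≤ N) (E : ℕ → ℝ) :
    ((∑ o ∈ Finset.range N, E o) / N) ^ 2 ≤ (∑ o ∈ Finset.range N, E o ^ 2) / N := by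
  have h0 : (0 : ℝ) < N := by exact_mod_cast hN
  have h1 := sq_sum_le_card_mul_sum_sq (s := Finset.range N) (f := E)
  rw [Finset.card_range] at h1
  rw [div_pow, div_le_div_iff₀ (by positivity) h0]
  nlinarith

theorem gRIE_gen (g : ℝ → ℝ) (B M δ : ℝ) (N : ℕ) (hg : Measurable g) (hB : ∀ x, |g x| ≤ B) (hM : 0 ≤ M) (hδ : 0 < δ)
    (hN : 1 ≤ N) (hsq : ∀ v ∈ Set.Ioc 0 δ, ∫⁻ y, ENNReal.ofReal ((g y - g (y + v)) ^ 2) ≤ ENNReal.ofReal M) :
    ∫ y, ((∑ o ∈ Finset.range N, g (y + (o : ℝ) * δ)) / N - (1 / (N * δ)) * ∫ v in (0 : ℝ)..(N * δ), g (y + v)) ^ 2 ≤ M := by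
  have h0 : (0 : ℝ) < N := by exact_mod_cast hN
  have hB0 : 0 ≤ B := (abs_nonneg _).trans (hB 0)
  have hint : ∀ (F : ℝ → ℝ) (C a b : ℝ), Measurable F → (∀ x, |F x| ≤ C) → IntegrableOn F (Set.Ioc a b) volume := by
    intro F C a b hF hC
    refine Measure.integrableOn_of_bounded (M := C) ?_ hF.aestronglyMeasurable ?_
    · simp [Real.volume_Ioc]
    · exact Eventually.of_forall fun x => by simpa [Real.norm_eq_abs] using hC x
  have hgs : ∀ y, Measurable fun v => g (y + v) := fun y => hg.comp (measurable_const.add measurable_id)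
  have hii : ∀ y a b, IntervalIntegrable (fun v => g (y + v)) volume a b := by
    intro y a b
    rw [intervalIntegrable_iff]
    exact hint _ B _ _ (hgs y) (fun x => hB _)
  have hbdd : ∀ y v, |g y - g (y + v)| ≤ 2 * B := fun y v => (abs_sub _ _).trans (by linarith [hB y, hB (y + v)])
  -- pointwise
  have hpt : ∀ y : ℝ, ((∑ o ∈ Finset.range N, g (y + (o : ℝ) * δ)) / N - (1 / (N * δ)) * ∫ v in (0 : ℝ)..(N * δ), g (y + v)) ^ 2 ≤
      (∑ o ∈ Finset.range N, 1 / δ * ∫ v in Set.Ioc 0 δ, (g (y + (o : ℝ) * δ) - g (y + (o : ℝ) * δ + v)) ^ 2) / N := by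
    intro y
    have e1 : ∫ v in (0 : ℝ)..(N * δ), g (y + v) = ∑ o ∈ Finset.range N, ∫ v in Set.Ioc 0 δ, g (y + (o : ℝ) * δ + v) := by
      have h1 := intervalIntegral.sum_integral_adjacent_intervals (f := fun v => g (y + v)) (μ := volume)
        (a := fun k : ℕ => (k : ℝ) * δ) (n := N) (fun k _ => hii y _ _)
      simp only [Nat.cast_zero, zero_mul] at h1
      rw [← h1]
      refine Finset.sum_congr rfl (fun o _ => ?_)
      rw [← intervalIntegral.integral_of_le hδ.le]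
      have h2 := intervalIntegral.integral_comp_add_right (a := 0) (b := δ) (fun v => g (y + v)) ((o : ℝ) * δ)
      rw [zero_add] at h2
      have h3 : δ + (o : ℝ) * δ = ((o + 1 : ℕ) : ℝ) * δ := by push_cast; ring
      rw [h3] at h2
      rw [← h2]
      refine intervalIntegral.integral_congr ?_
      intro v _
      simp only
      congr 1
      ring
    have e2 : (∑ o ∈ Finset.range N, g (y + (o : ℝ) * δ)) / N - (1 / (N * δ)) * ∫ v in (0 : ℝ)..(N * δ), g (y + v) =
        (∑ o ∈ Finset.range N, (1 / δ * ∫ v in Set.Ioc 0 δ, (g (y + (o : ℝ) * δ) - g (y + (o : ℝ) * δ + v)))) / N := by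
      have h1 : ∀ o ∈ Finset.range N, (1 / δ * ∫ v in Set.Ioc 0 δ, (g (y + (o : ℝ) * δ) - g (y + (o : ℝ) * δ + v))) =
          g (y + (o : ℝ) * δ) - 1 / δ * ∫ v in Set.Ioc 0 δ, g (y + (o : ℝ) * δ + v) := by
        intro o _
        rw [integral_sub (hint (fun _ => g (y + (o : ℝ) * δ)) B _ _ measurable_const (fun _ => hB _))
          (hint _ B _ _ (hgs _) (fun _ => hB _))]
        simp [hδ.le]
        field_simp
      rw [Finset.sum_congr rfl h1, Finset.sum_sub_distrib, ← Finset.mul_sum, e1]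
      generalize (∑ o ∈ Finset.range N, g (y + (o : ℝ) * δ)) = A1
      generalize (∑ o ∈ Finset.range N, ∫ v in Set.Ioc 0 δ, g (y + (o : ℝ) * δ + v)) = A2
      field_simp
    rw [e2]
    refine (gRIE_fin N hN _).trans ?_
    refine div_le_div_of_nonneg_right (Finset.sum_le_sum fun o _ => ?_) h0.le
    refine gRIE_cs _ δ hδ ?_ ?_
    · exact hint _ (2 * B) _ _ (measurable_const.sub (hgs _)) (fun v => hbdd _ _)
    · refine hint _ ((2 * B) ^ 2) _ _ ((measurable_const.sub (hgs _)).pow_const 2) (fun v => ?_)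
      rw [abs_pow]
      exact pow_le_pow_left₀ (abs_nonneg _) (hbdd _ _) 2
  refine gRIE_len _ M hM ?_
  set Φ : ℝ → ENNReal := fun y => ∫⁻ v in Set.Ioc 0 δ, ENNReal.ofReal ((g y - g (y + v)) ^ 2) with hΦ
  have hm2 : Measurable (fun q : ℝ × ℝ => ENNReal.ofReal ((g q.1 - g (q.1 + q.2)) ^ 2)) :=
    (((hg.comp measurable_fst).sub (hg.comp (measurable_fst.add measurable_snd))).pow_const 2).ennreal_ofReal
  have hΦm : Measurable Φ := Measurable.lintegral_prod_right' hm2
  have hΦI : ∫⁻ y, Φ y ≤ ENNReal.ofReal M * ENNReal.ofReal δ := by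
    simp only [hΦ]
    rw [lintegral_lintegral_swap hm2.aemeasurable]
    calc ∫⁻ v in Set.Ioc 0 δ, ∫⁻ y, ENNReal.ofReal ((g y - g (y + v)) ^ 2) ≤ ∫⁻ v in Set.Ioc 0 δ, ENNReal.ofReal M := by
          refine setLIntegral_mono measurable_const (fun v hv => hsq v hv)
      _ = ENNReal.ofReal M * ENNReal.ofReal δ := by
          rw [setLIntegral_const, Real.volume_Ioc, sub_zero]
  have hpt2 : ∀ y : ℝ, ENNReal.ofReal (((∑ o ∈ Finset.range N, g (y + (o : ℝ) * δ)) / N - (1 / (N * δ)) * ∫ v in (0 : ℝ)..(N * δ), g (y + v)) ^ 2) ≤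
      ∑ o ∈ Finset.range N, ENNReal.ofReal (1 / (N * δ)) * Φ (y + (o : ℝ) * δ) := by
    intro y
    refine (ENNReal.ofReal_le_ofReal (hpt y)).trans ?_
    have e1 : (∑ o ∈ Finset.range N, 1 / δ * ∫ v in Set.Ioc 0 δ, (g (y + (o : ℝ) * δ) - g (y + (o : ℝ) * δ + v)) ^ 2) / N =
        ∑ o ∈ Finset.range N, 1 / (N * δ) * ∫ v in Set.Ioc 0 δ, (g (y + (o : ℝ) * δ) - g (y + (o : ℝ) * δ + v)) ^ 2 := by
      rw [Finset.sum_div]
      refine Finset.sum_congr rfl (fun o _ => ?_)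
      field_simp
    have hnn : ∀ o : ℕ, 0 ≤ ∫ v in Set.Ioc 0 δ, (g (y + (o : ℝ) * δ) - g (y + (o : ℝ) * δ + v)) ^ 2 :=
      fun o => integral_nonneg fun v => sq_nonneg _
    rw [e1, ENNReal.ofReal_sum_of_nonneg (fun o _ => mul_nonneg (by positivity) (hnn o))]
    refine Finset.sum_le_sum (fun o _ => ?_)
    rw [ENNReal.ofReal_mul (by positivity)]
    refine mul_le_mul_right ?_ _
    rw [ofReal_integral_eq_lintegral_ofReal]
    · refine hint _ ((2 * B) ^ 2) _ _ ((measurable_const.sub (hgs _)).pow_const 2) (fun v => ?_)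
      rw [abs_pow]
      exact pow_le_pow_left₀ (abs_nonneg _) (hbdd _ _) 2
    · exact Eventually.of_forall fun v => sq_nonneg _
  calc ∫⁻ y, ENNReal.ofReal (((∑ o ∈ Finset.range N, g (y + (o : ℝ) * δ)) / N - (1 / (N * δ)) * ∫ v in (0 : ℝ)..(N * δ), g (y + v)) ^ 2)
      ≤ ∫⁻ y, ∑ o ∈ Finset.range N, ENNReal.ofReal (1 / (N * δ)) * Φ (y + (o : ℝ) * δ) := lintegral_mono hpt2
    _ = ∑ o ∈ Finset.range N, ENNReal.ofReal (1 / (N * δ)) * ∫⁻ y, Φ y := by
        have hsh : ∀ o : ℕ, Measurable fun y : ℝ => Φ (y + (o : ℝ) * δ) := fun o =>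
          hΦm.comp (measurable_id.add_const _)
        rw [lintegral_finsetSum]
        · refine Finset.sum_congr rfl (fun o _ => ?_)
          rw [lintegral_const_mul _ (hsh o), lintegral_add_right_eq_self (fun y => Φ y) ((o : ℝ) * δ)]
        · exact fun o _ => (hsh o).const_mul _
    _ ≤ ∑ o ∈ Finset.range N, ENNReal.ofReal (1 / (N * δ)) * (ENNReal.ofReal M * ENNReal.ofReal δ) :=
        Finset.sum_le_sum fun o _ => mul_le_mul_right hΦI _
    _ = ENNReal.ofReal M := by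
        rw [Finset.sum_const, Finset.card_range, nsmul_eq_mul, ← ENNReal.ofReal_mul hM, ← ENNReal.ofReal_mul (by positivity),
          ← ENNReal.ofReal_natCast, ← ENNReal.ofReal_mul (by positivity)]
        congr 1
        field_simp

theorem gRIE (hNIB : gNIB_stmt) (hFNC : gFNC_stmt) (hJMP : gJMP_stmt) : gRIE_stmt := by
  obtain ⟨K, hK1, hK⟩ := hJMP
  refine ⟨11 / 10 * K, by linarith, ?_⟩
  intro s N τ P f hN hτ hτ1 hsN hP hf hSu
  have h0 : (0 : ℝ) < N := by exact_mod_cast hN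
  obtain ⟨-, -, hlip⟩ := hNIB P (1 / 1000) (by norm_num) hP
  have hNL : ∀ v : ℝ, NL (fun y => ev P (y + v)) := by
    intro v x y hxy
    have h1 := hlip (y + v) (x + v)
    have h2 : |(y + v) - (x + v)| = y - x := by
      rw [abs_of_nonneg] <;> linarith
    rw [h2, abs_le] at h1
    constructor <;> simp only <;> linarith [h1.1, h1.2]
  obtain ⟨hfm, -, ⟨B, hB⟩, -, -, -, -⟩ := hFNC (s + 1) f _ hf hSu (hNL 0)
  have hPm : Measurable (ev P) := by
    have h1 := (hFNC (s + 1) f _ hf hSu (hNL 0)).2.1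
    simpa using h1
  set δ : ℝ := τ / N with hδd
  have hδ : 0 < δ := div_pos hτ h0
  have hNδ : (N : ℝ) * δ = τ := by rw [hδd]; field_simp
  have h2s : (0 : ℝ) < 2 ^ s := by positivity
  have hnf : 0 ≤ nsq f := integral_nonneg fun x => sq_nonneg _
  have hsδ : 2 ^ s * δ ≤ 1 / 2 := by
    rw [hδd, ← mul_div_assoc, div_le_iff₀ h0]
    rw [pow_succ] at hsN
    linarith
  set M : ℝ := 11 / 10 * K * (2 ^ s * τ / N) * nsq f with hM
  have hM0 : 0 ≤ M := by
    rw [hM]
    have : 0 ≤ K := by linarith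
    positivity
  have hkey : ∀ v ∈ Set.Ioc 0 δ, ∫⁻ y, ENNReal.ofReal ((f (ev P y) - f (ev P (y + v))) ^ 2) ≤ ENNReal.ofReal M := by
    intro v hv
    have hη : 11 / 10 * (2 ^ s * v) ≤ 1 := by
      have : 2 ^ s * v ≤ 2 ^ s * δ := mul_le_mul_of_nonneg_left hv.2 h2s.le
      linarith
    have h1 := hK s (11 / 10 * (2 ^ s * v)) (fun y => ev P (y + v)) (fun y => ev P (y + 0)) f
      (by have := hv.1; positivity) hη (hNL v) (hNL 0) ?_ hf hSu
    · have m1 : MemLp (fun y => f (ev P (y + 0))) 2 volume := (hFNC (s + 1) f _ hf hSu (hNL 0)).2.2.2.2.2.1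
      have m2 : MemLp (fun y => f (ev P (y + v))) 2 volume := (hFNC (s + 1) f _ hf hSu (hNL v)).2.2.2.2.2.1
      have m3 := (m1.sub m2).integrable_sq
      have e1 : nsq (fun x => f (ev P (x + 0)) - f (ev P (x + v))) = ∫ y, (f (ev P y) - f (ev P (y + v))) ^ 2 := by
        simp only [nsq, add_zero]
      have m4 : Integrable (fun y => (f (ev P y) - f (ev P (y + v))) ^ 2) volume := by
        refine m3.congr (Eventually.of_forall fun y => ?_)
        simp
      rw [e1] at h1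
      rw [← ofReal_integral_eq_lintegral_ofReal m4 (Eventually.of_forall fun y => sq_nonneg _)]
      refine ENNReal.ofReal_le_ofReal (h1.trans ?_)
      have hK0 : 0 ≤ K := by linarith
      have e2 : K * (11 / 10 * (2 ^ s * v)) * nsq f ≤ K * (11 / 10 * (2 ^ s * δ)) * nsq f := by
        have := hv.2
        gcongr
      refine e2.trans (le_of_eq ?_)
      rw [hM, hδd]
      ring
    · intro x
      have h1 := hlip (x + 0) (x + v)
      have hv0 := hv.1
      have h2 : |(x + 0) - (x + v)| = v := by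
        rw [show (x + 0) - (x + v) = -v by ring, abs_neg, abs_of_pos hv0]
      rw [h2] at h1
      have h3 : 11 / 10 * (2 ^ s * v) / 2 ^ s = 11 / 10 * v := by field_simp
      rw [h3]
      have h4 := abs_le.1 h1
      rw [abs_le]
      constructor <;> linarith [h4.1, h4.2]
  have hgen := gRIE_gen (fun x => f (ev P x)) B M δ N (hfm.comp hPm) (fun x => hB _) hM0 hδ hN hkey
  rw [hNδ] at hgen
  refine le_trans (le_of_eq ?_) hgen
  simp only [nsq]
  refine integral_congr_ae (Eventually.of_forall fun y => ?_)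
  simp only
  congr 3
  refine Finset.sum_congr rfl (fun o _ => ?_)
  congr 2
  rw [hδd]
  ring

end Pool.Agent.helper90.DH
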